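import Pool.Agent.Helper37_PFS.Stmts2

/-!
# PFS squad, row BBB for families (adapted from the file of helper97)
-/

set_option autoImplicit false

open Matrix Filter Topology

namespace Pool.Agent.PFS.H37

open Pool.Agent.PFS

/-- BBB -/
theorem bbb2 (zst : Zst2Stmt) (aaa : AStmt) : B2Stmt := by
  classical
  intro n C Γ hCC K hK T hT w w' i hTw hTw' hnear j hji M hM
  by_contra hcon
  rw [not_eventually] at hcon
  obtain ⟨N, hN, hN'⟩ := extraction_of_frequently_atTop
    (hcon.and_eventually (eventually_ge_atTop 2))
  set u : ℕ → Fin K → ℤ := fun m l => if l = i then 0 else if l = j then (N m : ℤ) else 1 with hu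
  have hui : ∀ m, u m i = 0 := by
    intro m
    rw [hu]
    simp
  have hul : ∀ m l, l ≠ i → 0 < u m l := by
    intro m l hl
    rw [hu]
    simp only
    rw [if_neg hl]
    split_ifs
    · have := (hN' m).2
      omega
    · norm_num
  obtain ⟨φ, W, W', hφ, hTW, hTW', hne, hlim⟩ := zst n C Γ hCC K (by omega) T hT w
    (fun _ => w') u 2 M hM
    hTw (fun _ => hTw') (fun m => hnear (u m) (fun l hl => by rw [hui]; exact hul m l hl))
    (fun m => (hN' m).1)
  have hW := hT.pes W hTW
  have hW' := hT.pes W' hTW'
  have hSW := hT.star W hTW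
  have hSW' := hT.star W' hTW'
  apply hne
  set J : Finset (Fin K) := ({i, j} : Finset (Fin K))ᶜ with hJ
  have hcard : ({i, j} : Finset (Fin K)).card = 2 := Finset.card_pair (Ne.symm hji)
  refine aaa n C hCC.toPCone K (by omega) W W' hW.1 hW'.1 hSW hSW' J 2 (by norm_num) ?_ ?_ ?_
  · rw [← Finset.card_pos, hJ, Finset.card_compl, Fintype.card_fin, hcard]
    omega
  · rw [hJ, compl_compl, hcard]
  · intro v hv
    apply hlim v 2
    apply Eventually.frequently
    have hNt : Tendsto (fun m => N (φ m)) atTop atTop := (hN.comp hφ).tendsto_atTop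
    filter_upwards [hNt.eventually (eventually_ge_atTop ((v i - v j).toNat + 1))] with m hm
    apply hnear
    intro l hl
    change u (φ m) i + v i < u (φ m) l + v l
    rw [hui, zero_add]
    have hiJ : i ∉ J := by
      rw [hJ, Finset.mem_compl, not_not]
      exact Finset.mem_insert_self i _
    by_cases hlj : l = j
    · rw [hlj, hu]
      simp only
      rw [if_neg hji, if_pos trivial]
      have h1 := Int.self_le_toNat (v i - v j)
      have h2 : (((v i - v j).toNat + 1 : ℕ) : ℤ) ≤ N (φ m) := by exact_mod_cast hm
      push_cast at h2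
      linarith
    · have hlJ : l ∈ J := by
        rw [hJ, Finset.mem_compl, Finset.mem_insert, Finset.mem_singleton]
        rintro (h | h)
        · exact hl h
        · exact hlj h
      have h1 := hv i hiJ l hlJ
      have h2 := hul (φ m) l hl
      linarith

end Pool.Agent.PFS.H37
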