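import Pool.Agent.PFS.Stmts

set_option autoImplicit false

open Matrix Filter Topology

namespace Pool.Agent.PFS.H37

variable {n : ℕ}

theorem hull_sum {C : Set (V n)} {Γ : Subgroup (GL (Fin n) ℝ)} (H : HulFacts C Γ) {ι : Type}
    {s : Finset ι} (hs : s.Nonempty) {f : ι → V n} (hf : ∀ i ∈ s, f i ∈ Hull C Γ) :
    ∑ i ∈ s, f i ∈ Hull C Γ := by
  classical
  induction hs using Finset.Nonempty.cons_induction with
  | singleton a => simpa using hf a (Finset.mem_singleton_self a)
  | cons a s ha hs ih =>
    rw [Finset.sum_cons]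
    exact H.add _ (hf a (Finset.mem_cons_self a s)) _
      (ih fun i hi => hf i (Finset.mem_cons_of_mem hi))

theorem poscone_cl {ι : Type} [Fintype ι] {w : ι → V n} {S : Set (V n)}
    (hS : PosCone w ⊆ closure S) (i : ι) : w i ∈ closure S := by
  classical
  have hlim : Tendsto (fun m : ℕ => ∑ j, (if j = i then (1 : ℝ) else 1 / ((m : ℝ) + 1)) • w j)
      atTop (𝓝 (∑ j, (if j = i then (1 : ℝ) else 0) • w j)) := by
    refine tendsto_finsetSum _ fun j _ => ?_
    by_cases hj : j = i
    · simp only [hj, if_true]; exact tendsto_const_nhds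
    · simp only [hj, if_false]
      exact tendsto_one_div_add_atTop_nhds_zero_nat.smul_const (w j)
  have he : ∑ j, (if j = i then (1 : ℝ) else 0) • w j = w i := by
    simp
  rw [he] at hlim
  refine isClosed_closure.mem_of_tendsto hlim (Eventually.of_forall fun m => hS ⟨_, ?_, rfl⟩)
  intro j
  split_ifs <;> positivity

theorem fzm (zom : ZomStmt) (lim : LimStmt) (flm : FlmStmt) (elm : ElmStmt) : FzmStmt := by
  intro n C Γ h r q x y0 b hx hyind hface hq hb hsum homit
  classical
  have H := h.hul
  have hxcl := H.lamCl x hx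
  have hxne := H.lamNe x hx
  have hxnot := H.lamNot x hx
  have hxx : x ∈ Face C x :=
    ⟨1, one_pos, by simpa using h.zero_cl, by simpa using h.zero_cl⟩
  rw [hface] at hxx
  obtain ⟨c, hc, hxe⟩ := hxx
  let y : Fin r → V n := fun s => c s • y0 s
  have hxy : x = ∑ s, y s := hxe
  have hr : 1 ≤ r := by
    rcases Nat.eq_zero_or_pos r with h0 | h0
    · subst h0
      exfalso; apply hxne; rw [hxe]; simp
    · exact h0
  have hfcl : ∀ z ∈ Face C x, z ∈ closure C := by
    rintro z ⟨ε, hε, _, h2⟩
    have := h.cl_add h2 (h.cl_smul hxcl hε.le)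
    simpa using this
  have hycl : ∀ s, y s ∈ closure C := fun s =>
    h.cl_smul (poscone_cl (w := y0) (S := C) (by rw [← hface]; exact hfcl) s) (hc s).le
  have hyne : ∀ s, y s ≠ 0 := fun s => smul_ne_zero (hc s).ne' (hyind.ne_zero s)
  have hyx : ∀ s, x - y s ∈ closure C := by
    intro s
    have e : x - y s = ∑ s' ∈ Finset.univ.erase s, y s' := by
      rw [Finset.sum_erase_eq_sub (Finset.mem_univ s), ← hxy]
    rw [e]
    exact h.cl_sum fun i _ => hycl i
  have hylam : ∀ s, y s ∈ LamC C Γ := fun s =>
    flm n C Γ h x hx (y s) (hycl s) (hyne s) (hyx s)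
  let t : ℕ → ℝ := fun m => 1 / ((m : ℝ) + 1)
  have ht0 : ∀ m, 0 < t m := fun m => by simp only [t]; positivity
  have ht1 : ∀ m, t m ≤ 1 := fun m => by
    simp only [t]
    rw [div_le_one (by positivity)]
    have : (0 : ℝ) ≤ m := Nat.cast_nonneg m
    linarith
  have htlim : Tendsto t atTop (𝓝 0) := tendsto_one_div_add_atTop_nhds_zero_nat
  let B : V n := ∑ j, b j
  have : Nonempty (Fin q) := ⟨⟨0, hq⟩⟩
  have hBH : B ∈ Hull C Γ := hull_sum H Finset.univ_nonempty fun j _ => hb j
  have hbcl : ∀ j, b j ∈ closure C := fun j => H.hullCl _ (hb j)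
  let p : ℕ → V n := fun m => x + t m • B
  have hpC : ∀ m, p m ∈ C := by
    intro m
    have h1 : t m • (x + B) ∈ C := h.smul _ hsum _ (ht0 m)
    have h2 : (1 - t m) • x ∈ closure C := h.cl_smul hxcl (by have := ht1 m; linarith)
    have h3 := h.add_cl h1 h2
    have e : t m • (x + B) + (1 - t m) • x = p m := by
      simp only [p]
      rw [smul_add, sub_smul, one_smul]; abel
    rwa [e] at h3
  have hpH : ∀ m, p m ∈ Hull C Γ := fun m =>
    H.add _ (H.lamHull x hx) _ (H.smul B hBH (t m) (ht0 m))
  obtain ⟨φ, g, s, p0, hφ, hg, hs, hp0, hlimp⟩ := zom n C Γ h p hpC hpH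
  let X : ℕ → (Fin r ⊕ Fin q) → V n := fun m =>
    Sum.elim (fun a => s m • act (g m) (y a)) (fun j => s m • act (g m) (t (φ m) • b j))
  have hsumX : ∀ m, ∑ i, X m i = s m • act (g m) (p (φ m)) := by
    intro m
    rw [Fintype.sum_sum_type]
    simp only [X, Sum.elim_inl, Sum.elim_inr]
    rw [← Finset.smul_sum, ← Finset.smul_sum, ← CC.act_sum, ← CC.act_sum, ← smul_add,
      ← CC.act_add, ← Finset.smul_sum, ← hxy]
  have hXH : ∀ m i, X m i ∈ Hull C Γ := by
    rintro m (a | j)
    · exact H.smul _ (H.act _ (H.lamHull _ (hylam a)) _ (hg m)) _ (hs m)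
    · exact H.smul _ (H.act _ (H.smul _ (hb j) _ (ht0 _)) _ (hg m)) _ (hs m)
  have hcard : 2 ≤ Fintype.card (Fin r ⊕ Fin q) := by
    rw [Fintype.card_sum, Fintype.card_fin, Fintype.card_fin]; omega
  have hlimX : Tendsto (fun m => ∑ i, X m i) atTop (𝓝 p0) := by
    simp only [hsumX]; exact hlimp
  obtain ⟨ψ, W, hψ, hWlim, hWsum, hW⟩ := lim n C Γ h (Fin r ⊕ Fin q) hcard X p0 hXH hp0 hlimX
  have herase : ∀ i, Tendsto (fun m => ∑ j ∈ Finset.univ.erase i, X (ψ m) j) atTop
      (𝓝 (∑ j ∈ Finset.univ.erase i, W j)) := fun i =>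
    tendsto_finsetSum _ fun j _ => hWlim j
  have hPES : IsPES C Γ W := by
    apply hW
    rintro (a | j)
    · -- omit a vertex coming from the face
      intro hmem
      obtain ⟨M, hM, hMC⟩ := h.absorb hmem (W (Sum.inl a))
      let η : ℝ := 1 / M
      have hη : 0 < η := by simp only [η]; positivity
      have hmem2 : (∑ j ∈ Finset.univ.erase (Sum.inl a), W j) - η • W (Sum.inl a) ∈ C := by
        have := h.smul _ hMC (1 / M) (by positivity)
        rwa [smul_sub, smul_smul, one_div_mul_cancel hM.ne', one_smul] at this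
      have hl2 : Tendsto (fun m => (∑ j ∈ Finset.univ.erase (Sum.inl a), X (ψ m) j)
          - η • X (ψ m) (Sum.inl a)) atTop
          (𝓝 ((∑ j ∈ Finset.univ.erase (Sum.inl a), W j) - η • W (Sum.inl a))) :=
        (herase (Sum.inl a)).sub ((hWlim (Sum.inl a)).const_smul η)
      have hev : ∀ᶠ m in atTop, p (φ (ψ m)) - (1 + η) • y a ∈ closure C := by
        filter_upwards [hl2.eventually (h.isOpen.mem_nhds hmem2)] with m hm
        have e : (∑ j ∈ Finset.univ.erase (Sum.inl a), X (ψ m) j) - η • X (ψ m) (Sum.inl a)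
            = s (ψ m) • act (g (ψ m)) (p (φ (ψ m)) - (1 + η) • y a) := by
          rw [Finset.sum_erase_eq_sub (Finset.mem_univ _), hsumX]
          simp only [X, Sum.elim_inl]
          rw [CC.act_sub, CC.act_smul (g (ψ m)) (1 + η) (y a)]
          module
        have hm' : (∑ j ∈ Finset.univ.erase (Sum.inl a), X (ψ m) j) - η • X (ψ m) (Sum.inl a)
            ∈ C := hm
        rw [e, h.sact_mem_iff (hg _) (hs _)] at hm'
        exact subset_closure hm'
      have hpx : Tendsto (fun m => p (φ (ψ m))) atTop (𝓝 x) := by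
        have h1 : Tendsto (fun m => t (φ (ψ m))) atTop (𝓝 0) :=
          htlim.comp (hφ.tendsto_atTop.comp hψ.tendsto_atTop)
        have h2 : Tendsto (fun m => x + t (φ (ψ m)) • B) atTop (𝓝 (x + (0 : ℝ) • B)) :=
          tendsto_const_nhds.add (h1.smul_const B)
        rw [zero_smul, add_zero] at h2
        exact h2
      have hz : x - (1 + η) • y a ∈ closure C :=
        isClosed_closure.mem_of_tendsto (hpx.sub tendsto_const_nhds) hev
      set z : V n := x - (1 + η) • y a with hzdef
      have hzF : x + M • z ∈ Face C x := by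
        refine ⟨1 / (1 + M), by positivity, ?_, ?_⟩
        · have e : x - (1 / (1 + M)) • (x + M • z)
              = ((1 / (1 + M)) * M * (1 + η)) • y a := by
            rw [hzdef]
            have h1 : (1 / (1 + M)) * (1 + M) = 1 := by
              rw [one_div_mul_cancel]; positivity
            ext i
            simp only [Pi.sub_apply, Pi.add_apply, Pi.smul_apply, smul_eq_mul]
            linear_combination (-(x i)) * h1
          rw [e]
          exact h.cl_smul (hycl a) (by positivity)
        · have e : x + M • z - (1 / (1 + M)) • x = (M / (1 + M)) • x + M • z := by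
            have h1 : (M / (1 + M)) = 1 - 1 / (1 + M) := by
              field_simp; ring
            rw [h1, sub_smul, one_smul]; abel
          rw [e]
          exact h.cl_add (h.cl_smul hxcl (by positivity)) (h.cl_smul hz hM.le)
      rw [hface] at hzF
      obtain ⟨d, hd, hde⟩ := hzF
      have hcomb : ∑ s', (d s' - ((1 + M) * c s' - (if s' = a then M * (1 + η) * c a else 0)))
          • y0 s' = 0 := by
        have e1 : x + M • z = (1 + M) • x - (M * (1 + η)) • y a := by
          rw [hzdef]
          ext i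
          simp only [Pi.sub_apply, Pi.add_apply, Pi.smul_apply, smul_eq_mul]
          ring
        have e2 : ∑ s', (if s' = a then M * (1 + η) * c a else 0) • y0 s'
            = (M * (1 + η)) • y a := by
          simp only [ite_smul, zero_smul, Finset.sum_ite_eq', Finset.mem_univ, if_true, y]
          rw [smul_smul]
        simp only [sub_smul, Finset.sum_sub_distrib]
        rw [e2, ← hde, e1]
        have e3 : ∑ s', ((1 + M) * c s') • y0 s' = (1 + M) • x := by
          rw [hxe, Finset.smul_sum]
          exact Finset.sum_congr rfl fun s' _ => by rw [smul_smul]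
        rw [e3]; abel
      have hli := (Fintype.linearIndependent_iff.mp hyind) _ hcomb a
      have h4 : d a = 0 := by
        simp only [if_true] at hli
        have h5 : M * η = 1 := by simp only [η]; field_simp
        linear_combination hli + (-(c a)) * h5
      exact absurd h4 (hd a).ne'
    · -- omit one of the added vertices
      intro hmem
      obtain ⟨m, hm⟩ := ((herase (Sum.inr j)).eventually (h.isOpen.mem_nhds hmem)).exists
      have e : ∑ i ∈ Finset.univ.erase (Sum.inr j), X (ψ m) i
          = s (ψ m) • act (g (ψ m)) (p (φ (ψ m)) - t (φ (ψ m)) • b j) := by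
        rw [Finset.sum_erase_eq_sub (Finset.mem_univ _), hsumX]
        simp only [X, Sum.elim_inr]
        rw [CC.act_sub, smul_sub]
      have hm' : ∑ i ∈ Finset.univ.erase (Sum.inr j), X (ψ m) i ∈ C := hm
      rw [e, h.sact_mem_iff (hg _) (hs _)] at hm'
      apply homit j
      refine h.mem_of_le hm' ?_
      have e2 : x + ∑ l ∈ Finset.univ.erase j, b l - (p (φ (ψ m)) - t (φ (ψ m)) • b j)
          = (1 - t (φ (ψ m))) • ∑ l ∈ Finset.univ.erase j, b l := by
        rw [Finset.sum_erase_eq_sub (Finset.mem_univ _)]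
        simp only [p, B]
        rw [sub_smul, one_smul, smul_sub]
        abel
      rw [e2]
      exact h.cl_smul (h.cl_sum fun i _ => hbcl i) (by have := ht1 (φ (ψ m)); linarith)
  exact ⟨fun i => W (finSumFinEquiv.symm i),
    (elm n C Γ h (Fin r ⊕ Fin q) W hPES).2.2.1 (Fin (r + q)) finSumFinEquiv.symm⟩

end Pool.Agent.PFS.H37
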