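import Pool.Agent.Helper37_PFS.Stmts2
import Pool.Agent.Helper37_PFS.FZM

set_option autoImplicit false

open Matrix Filter Topology

namespace Pool.Agent.PFS.H37

variable {n : ℕ}

theorem c22 (zom : ZomStmt) (lim : LimStmt) (elm : ElmStmt) (lin : LinStmt) (fun_ : FunStmt) :
    C22Stmt := by
  intro n C Γ h K hK hmax w w' i hw hw' hst hsh hne hφ
  classical
  have H := h.hul
  have hind := lin n C h.toPCone (Fin K) w hw.1
  -- choose l ≠ i
  obtain ⟨l, hl⟩ : ∃ l : Fin K, l ≠ i := by
    have : Nontrivial (Fin K) := Fin.nontrivial_iff_two_le.mpr (by omega)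
    exact exists_ne i
  obtain ⟨c, hcC, hcH⟩ := h.core
  let x0 : V n := ∑ m ∈ Finset.univ.erase l, w m
  let u : V n := w' i
  have hwcl : ∀ m, w m ∈ closure C := fun m => H.lamCl _ (hw.2 m)
  have hucl : u ∈ closure C := H.lamCl _ (hw'.2 i)
  have hx0cl : x0 ∈ closure C := h.cl_sum fun m _ => hwcl m
  have hccl : c ∈ closure C := subset_closure hcC
  have hune : u ≠ 0 := H.lamNe _ (hw'.2 i)
  have huH : u ∈ Hull C Γ := H.lamHull _ (hw'.2 i)
  have hne_erase : (Finset.univ.erase l : Finset (Fin K)).Nonempty :=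
    ⟨i, Finset.mem_erase.mpr ⟨hl.symm, Finset.mem_univ _⟩⟩
  have hx0H : x0 ∈ Hull C Γ := hull_sum H hne_erase fun m _ => H.lamHull _ (hw.2 m)
  -- the functional at l
  have hxu : x0 + u ∉ C := by
    obtain ⟨φ, h1, h2, h3, h4⟩ := fun_ n C h.toPCone (Fin K) w l hw.1
    intro hmem
    have h5 := h1 _ hmem
    have h6 : φ u = 0 := hφ l hl φ h1 h2 h3 h4
    rw [map_add, h6, map_sum, Finset.sum_eq_zero] at h5
    · simp at h5
    · intro m hm
      exact h3 m (Finset.ne_of_mem_erase hm)
  -- u is not below a multiple of x0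
  have hkey : ∀ M : ℝ, M • x0 - u ∉ closure C := by
    intro M hmem
    obtain ⟨d, hd0, hdl, hde⟩ := hst (Finset.univ.erase l) (by
      intro hE
      have : l ∈ (Finset.univ.erase l : Finset (Fin K)) := by rw [hE]; exact Finset.mem_univ l
      exact Finset.notMem_erase l _ this) M u hucl hmem
    have hdm : ∀ m, m ≠ i → d m = 0 := by
      intro m hm
      by_cases hml : m = l
      · subst hml
        exact hdl m (Finset.notMem_erase m _)
      obtain ⟨φ, h1, h2, h3, h4⟩ := fun_ n C h.toPCone (Fin K) w m hw.1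
      have h6 : φ u = 0 := hφ m hm φ h1 h2 h3 h4
      rw [hde, map_sum, Finset.sum_eq_single m] at h6
      · rw [map_smul, smul_eq_mul] at h6
        rcases mul_eq_zero.mp h6 with h7 | h7
        · exact h7
        · exact absurd h7 h4.ne'
      · intro b _ hb
        rw [map_smul, h3 b hb, smul_zero]
      · intro hb; exact absurd (Finset.mem_univ m) hb
    have hui : u = d i • w i := by
      rw [hde, Finset.sum_eq_single i]
      · intro b _ hb; rw [hdm b hb, zero_smul]
      · intro hb; exact absurd (Finset.mem_univ i) hb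
    have hdi : 0 < d i := by
      rcases (hd0 i).eq_or_lt with h8 | h8
      · exfalso; apply hune; rw [hui, ← h8, zero_smul]
      · exact h8
    exact hne ⟨d i, hdi, hui⟩
  -- choice of the second speed
  have hsp : ∀ (M t : ℝ), 0 < t → ∃ s : ℝ, 0 < s ∧ s ≤ t ∧
      M • (x0 + s • c) - t • u ∉ closure C := by
    intro M t ht
    by_contra hcon
    push Not at hcon
    have hlim : Tendsto (fun m : ℕ => M • (x0 + (t * (1 / ((m : ℝ) + 1))) • c) - t • u) atTop
        (𝓝 (M • (x0 + (t * 0) • c) - t • u)) := by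
      have h1 : Tendsto (fun m : ℕ => t * (1 / ((m : ℝ) + 1))) atTop (𝓝 (t * 0)) :=
        tendsto_one_div_add_atTop_nhds_zero_nat.const_mul t
      exact ((tendsto_const_nhds.add (h1.smul_const c)).const_smul M).sub tendsto_const_nhds
    rw [mul_zero, zero_smul, add_zero] at hlim
    have hmem : M • x0 - t • u ∈ closure C := by
      refine isClosed_closure.mem_of_tendsto hlim (Eventually.of_forall fun m => ?_)
      refine hcon _ (by positivity) ?_
      have h1 : (1 : ℝ) / ((m : ℝ) + 1) ≤ 1 := by
        rw [div_le_one (by positivity)]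
        have : (0 : ℝ) ≤ m := Nat.cast_nonneg m
        linarith
      nlinarith
    have h2 := h.cl_smul hmem (t := t⁻¹) (by positivity)
    rw [smul_sub, smul_smul, smul_smul, inv_mul_cancel₀ ht.ne', one_smul] at h2
    exact hkey _ h2
  let t : ℕ → ℝ := fun m => 1 / ((m : ℝ) + 1)
  have ht0 : ∀ m, 0 < t m := fun m => by simp only [t]; positivity
  have ht1 : ∀ m, t m ≤ 1 := fun m => by
    simp only [t]
    rw [div_le_one (by positivity)]
    have : (0 : ℝ) ≤ m := Nat.cast_nonneg m
    linarith
  have htlim : Tendsto t atTop (𝓝 0) := tendsto_one_div_add_atTop_nhds_zero_nat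
  choose r hr0 hrt hrn using fun m : ℕ => hsp ((m : ℝ) + 1) (t m) (ht0 m)
  have hrlim : Tendsto r atTop (𝓝 0) :=
    squeeze_zero (fun m => (hr0 m).le) hrt htlim
  let p : ℕ → V n := fun m => x0 + t m • u + r m • c
  have hpC : ∀ m, p m ∈ C := fun m =>
    h.cl_add' (h.cl_add hx0cl (h.cl_smul hucl (ht0 m).le)) (h.smul c hcC _ (hr0 m))
  have hpH : ∀ m, p m ∈ Hull C Γ := fun m =>
    H.add _ (H.add _ hx0H _ (H.smul _ huH _ (ht0 m))) _ (H.smul _ hcH _ (hr0 m))
  obtain ⟨φ, g, s, p0, hφm, hg, hs, hp0, hlimp⟩ := zom n C Γ h p hpC hpH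
  -- the family, indexed by Option (Fin K)
  let f : ℕ → Option (Fin K) → V n := fun m o =>
    match o with
    | none => t m • u
    | some j => if j = l then r m • c else w j
  have hfH : ∀ m o, f m o ∈ Hull C Γ := by
    rintro m (_ | j)
    · exact H.smul _ huH _ (ht0 m)
    · simp only [f]
      split_ifs
      · exact H.smul _ hcH _ (hr0 m)
      · exact H.lamHull _ (hw.2 j)
  have hfsum : ∀ m, ∑ o, f m o = p m := by
    intro m
    rw [Fintype.sum_option]
    have h1 : ∑ j, f m (some j) = r m • c + x0 := by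
      rw [← Finset.add_sum_erase _ _ (Finset.mem_univ l)]
      congr 1
      · simp [f]
      · refine Finset.sum_congr rfl fun j hj => ?_
        simp [f, Finset.ne_of_mem_erase hj]
    rw [h1]
    simp only [f, p]
    abel
  let X : ℕ → Option (Fin K) → V n := fun m o => s m • act (g m) (f (φ m) o)
  have hsumX : ∀ m, ∑ o, X m o = s m • act (g m) (p (φ m)) := by
    intro m
    simp only [X]
    rw [← Finset.smul_sum, ← CC.act_sum, hfsum]
  have hXH : ∀ m o, X m o ∈ Hull C Γ := fun m o =>
    H.smul _ (H.act _ (hfH _ o) _ (hg m)) _ (hs m)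
  have hcard : 2 ≤ Fintype.card (Option (Fin K)) := by
    rw [Fintype.card_option, Fintype.card_fin]; omega
  have hlimX : Tendsto (fun m => ∑ o, X m o) atTop (𝓝 p0) := by
    simp only [hsumX]; exact hlimp
  obtain ⟨ψ, W, hψ, hWlim, hWsum, hW⟩ := lim n C Γ h (Option (Fin K)) hcard X p0 hXH hp0 hlimX
  have hcomp : Tendsto (fun m => φ (ψ m)) atTop atTop :=
    hφm.tendsto_atTop.comp hψ.tendsto_atTop
  -- general consequence of a sum with one vertex omitted in C
  have hgen : ∀ o : Option (Fin K), ∑ j ∈ Finset.univ.erase o, W j ∈ C →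
      ∃ M : ℝ, 0 < M ∧ ∀ᶠ m in atTop,
        M • (p (φ (ψ m)) - f (φ (ψ m)) o) - f (φ (ψ m)) o ∈ C := by
    intro o hmem
    obtain ⟨M, hM, hMC⟩ := h.absorb hmem (W o)
    refine ⟨M, hM, ?_⟩
    have hl2 : Tendsto (fun m => M • (∑ j ∈ Finset.univ.erase o, X (ψ m) j) - X (ψ m) o) atTop
        (𝓝 (M • (∑ j ∈ Finset.univ.erase o, W j) - W o)) :=
      ((tendsto_finsetSum _ fun j _ => hWlim j).const_smul M).sub (hWlim o)
    filter_upwards [hl2.eventually (h.isOpen.mem_nhds hMC)] with m hm
    have hm' : M • (∑ j ∈ Finset.univ.erase o, X (ψ m) j) - X (ψ m) o ∈ C := hm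
    have e : M • (∑ j ∈ Finset.univ.erase o, X (ψ m) j) - X (ψ m) o
        = s (ψ m) • act (g (ψ m)) (M • (p (φ (ψ m)) - f (φ (ψ m)) o) - f (φ (ψ m)) o) := by
      rw [Finset.sum_erase_eq_sub (Finset.mem_univ _), hsumX]
      simp only [X]
      rw [CC.act_sub, CC.act_smul, CC.act_sub]
      module
    rw [e, h.sact_mem_iff (hg _) (hs _)] at hm'
    exact hm'
  have hPES : IsPES C Γ W := by
    apply hW
    rintro (_ | a) hmem
    · -- omit u
      obtain ⟨M, hM, hev⟩ := hgen none hmem
      obtain ⟨N, hN⟩ := exists_nat_ge M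
      obtain ⟨m, hm1, hm2⟩ := (hev.and (hcomp.eventually (eventually_ge_atTop N))).exists
      apply hrn (φ (ψ m))
      have e1 : p (φ (ψ m)) - f (φ (ψ m)) none = x0 + r (φ (ψ m)) • c := by
        simp only [p, f]; abel
      rw [e1] at hm1
      have e2 : ((φ (ψ m) : ℝ) + 1) • (x0 + r (φ (ψ m)) • c) - t (φ (ψ m)) • u
          = (M • (x0 + r (φ (ψ m)) • c) - t (φ (ψ m)) • u)
            + (((φ (ψ m) : ℝ) + 1) - M) • (x0 + r (φ (ψ m)) • c) := by
        module
      have hm3 : (N : ℝ) ≤ (φ (ψ m) : ℝ) := by exact_mod_cast hm2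
      rw [e2]
      refine h.cl_add (subset_closure hm1) (h.cl_smul (h.cl_add hx0cl
        (h.cl_smul hccl (hr0 _).le)) ?_)
      linarith
    · by_cases hal : a = l
      · -- omit c
        subst hal
        obtain ⟨M, hM, hev⟩ := hgen (some a) hmem
        obtain ⟨m, hm⟩ := hev.exists
        apply hxu
        have e1 : p (φ (ψ m)) - f (φ (ψ m)) (some a) = x0 + t (φ (ψ m)) • u := by
          simp only [p, f, if_true]; abel
        have h1 : M • (x0 + t (φ (ψ m)) • u) ∈ C := by
          refine h.mem_of_le hm ?_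
          rw [e1]
          have e2 : M • (x0 + t (φ (ψ m)) • u) - (M • (x0 + t (φ (ψ m)) • u)
              - f (φ (ψ m)) (some a)) = f (φ (ψ m)) (some a) := by abel
          rw [e2]
          exact H.hullCl _ (hfH (φ (ψ m)) (some a))
        rw [h.smul_iff hM] at h1
        refine h.mem_of_le h1 ?_
        have e3 : x0 + u - (x0 + t (φ (ψ m)) • u) = (1 - t (φ (ψ m))) • u := by module
        rw [e3]
        exact h.cl_smul hucl (by have := ht1 (φ (ψ m)); linarith)
      · -- omit w a
        obtain ⟨M, hM, hev⟩ := hgen (some a) hmem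
        have hfa : ∀ m, f m (some a) = w a := fun m => by simp [f, hal]
        have hlim3 : Tendsto (fun m => M • (p (φ (ψ m)) - w a) - w a) atTop
            (𝓝 (M • (x0 + (0 : ℝ) • u + (0 : ℝ) • c - w a) - w a)) := by
          have h1 : Tendsto (fun m => p (φ (ψ m))) atTop
              (𝓝 (x0 + (0 : ℝ) • u + (0 : ℝ) • c)) :=
            (tendsto_const_nhds.add ((htlim.comp hcomp).smul_const u)).add
              ((hrlim.comp hcomp).smul_const c)
          exact ((h1.sub tendsto_const_nhds).const_smul M).sub tendsto_const_nhds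
        rw [zero_smul, zero_smul, add_zero, add_zero] at hlim3
        have hcl3 : M • (x0 - w a) - w a ∈ closure C := by
          refine isClosed_closure.mem_of_tendsto hlim3 ?_
          filter_upwards [hev] with m hm
          rw [hfa] at hm
          exact subset_closure hm
        have hale : a ∈ (Finset.univ.erase l : Finset (Fin K)) :=
          Finset.mem_erase.mpr ⟨hal, Finset.mem_univ a⟩
        have e4 : x0 - w a = ∑ m ∈ (Finset.univ.erase l).erase a, w m := by
          rw [Finset.sum_erase_eq_sub hale]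
        rw [e4] at hcl3
        obtain ⟨d, hd0, hdl, hde⟩ := hst ((Finset.univ.erase l).erase a) (by
          intro hE
          have : a ∈ ((Finset.univ.erase l).erase a : Finset (Fin K)) := by
            rw [hE]; exact Finset.mem_univ a
          exact Finset.notMem_erase a _ this) M (w a) (hwcl a) hcl3
        have hda : d a = 0 := hdl a (Finset.notMem_erase a _)
        have hz : ∑ m, (d m - if m = a then 1 else 0) • w m = 0 := by
          simp only [sub_smul, Finset.sum_sub_distrib, ite_smul, one_smul, zero_smul,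
            Finset.sum_ite_eq', Finset.mem_univ, if_true]
          rw [← hde, sub_self]
        have h9 := (Fintype.linearIndependent_iff.mp hind) _ hz a
        rw [hda] at h9
        simp at h9
  -- contradiction with maximality
  have hcardK : Fintype.card (Option (Fin K)) = K + 1 := by
    rw [Fintype.card_option, Fintype.card_fin]
  have e := Fintype.equivFinOfCardEq hcardK
  have hfin := (elm n C Γ h (Option (Fin K)) W hPES).2.2.1 (Fin (K + 1)) e.symm
  have := hmax (K + 1) _ hfin
  omega

end Pool.Agent.PFS.H37
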