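import Pool.Agent.Helper37_PFS.Stmts2

/-!
# PFS, row DS1: failure of discreteness gives two simplices near in a region
-/

set_option autoImplicit false

open Matrix Filter Topology

namespace Pool.Agent.PFS.H37

open Pool.Agent.PFS

/-- the spread is attained -/
lemma exists_spread {K : ℕ} (hK : 0 < K) (u : Fin K → ℤ) :
    ∃ a b : Fin K, ∀ i j, u i - u j ≤ u a - u b := by
  haveI : Nonempty (Fin K) := ⟨⟨0, hK⟩⟩
  obtain ⟨a, ha⟩ := Finite.exists_max u
  obtain ⟨b, hb⟩ := Finite.exists_min u
  exact ⟨a, b, fun i j => by have := ha i; have := hb j; omega⟩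

theorem ds12 (min : MinStmt) (gap : GapStmt) (nin : NinStmt) (zst : Zst2Stmt)
    (aaa : AStmt) : Ds12Stmt := by
  intro n C Γ h K hK T hT x w hTx hTw hlim hnot
  have hw : IsPES C Γ w := hT.pes w hTw
  have hx : ∀ m, IsPES C Γ (x m) := fun m => hT.pes _ (hTx m)
  have hK0 : 0 < K := by omega
  obtain ⟨u, hu1, hu2, hu3⟩ := min n C h.toPCone K hK x w (fun m => (hx m).1)
    (fun m => hT.star _ (hTx m)) hw.1 (hT.star w hTw) hlim hnot
  -- near with constant 4 as soon as the spread is positive
  have near4 : ∀ m, (∃ i j, (1 : ℤ) ≤ u m i - u m j) → Near C 4 (x m) (pt w (u m)) := by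
    rintro m ⟨i0, j0, hij⟩
    obtain ⟨a, b, hab⟩ := exists_spread hK0 (u m)
    have hD : 1 ≤ u m a - u m b := hij.trans (hab i0 j0)
    let v : Fin K → ℤ := fun i => if u m i = u m a then u m i - 1 else u m i
    have hle : ∀ i, u m i ≤ u m a := fun i => by have := hab i b; omega
    have hge : ∀ i, u m b ≤ u m i := fun i => by have := hab a i; omega
    have hv1 : ∀ i, v i ≤ u m i := by
      intro i; simp only [v]; split_ifs <;> omega
    have hv2 : ∀ i, u m i - 1 ≤ v i := by
      intro i; simp only [v]; split_ifs <;> omega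
    have hnear2 : Near C 2 (x m) (pt w v) := by
      refine hu2 m v (u m a - u m b - 1) ?_ ⟨a, b, by omega⟩
      intro i j
      have h1 := hle i
      have h2 := hge i
      have h3 := hle j
      have h4 := hge j
      simp only [v]
      split_ifs <;> omega
    have hp : pt w (u m) - pt w v ∈ closure C := by
      unfold pt
      rw [← Finset.sum_sub_distrib]
      refine h.cl_sum fun i _ => ?_
      rw [← sub_smul]
      refine h.cl_smul (hw.1.cl i) ?_
      have := zpow_le_zpow_right₀ (one_le_two : (1 : ℝ) ≤ 2) (hv1 i)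
      linarith
    have hq : (2 : ℝ) • pt w v - pt w (u m) ∈ closure C := by
      unfold pt
      rw [Finset.smul_sum, ← Finset.sum_sub_distrib]
      refine h.cl_sum fun i _ => ?_
      rw [smul_smul, ← sub_smul]
      refine h.cl_smul (hw.1.cl i) ?_
      have h1 := zpow_le_zpow_right₀ (one_le_two : (1 : ℝ) ≤ 2)
        (show u m i ≤ 1 + v i by have := hv2 i; omega)
      rw [zpow_add₀ (by norm_num : (2 : ℝ) ≠ 0), zpow_one] at h1
      linarith
    have := (nin n C Γ h K (x m) (pt w v) 2).2.1 (pt w (u m)) hnear2 hp hq (by norm_num)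
    norm_num at this
    exact this
  -- shift
  obtain ⟨m0, hm0⟩ := eventually_atTop.mp (hu3 1)
  obtain ⟨φ, J, hφ, hJ, hJc, hgap⟩ := gap K (fun m => u (m + m0)) (by
    intro L
    exact (tendsto_add_atTop_nat m0).eventually (hu3 L))
  obtain ⟨ψ, W, W', hψ, hTW, hTW', hsame, hWW⟩ := zst n C Γ h K (by omega) T hT w
    (fun m => x (φ m + m0)) (fun m => u (φ m + m0)) 4 2 (by norm_num) hTw
    (fun m => hTx _) (fun m => near4 _ (hm0 _ (by omega))) (fun m => hu1 _)
  have hW : IsPES C Γ W := hT.pes W hTW
  have hW' : IsPES C Γ W' := hT.pes W' hTW'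
  -- nearness in the region
  have hreg : ∀ v : Fin K → ℤ, (∀ i, i ∉ J → ∀ j, j ∈ J → v i < v j) →
      Near C 2 W' (pt W v) := by
    intro v hv
    obtain ⟨a0, b0, hν⟩ := exists_spread hK0 v
    refine hWW v 2 ?_
    have hev : ∀ᶠ m in atTop, Near C 2 (x (φ m + m0))
        (pt w (fun i => u (φ m + m0) i + v i)) := by
      filter_upwards [hgap (v a0 - v b0 + 1)] with m hg
      obtain ⟨a, b, hab⟩ := exists_spread hK0 (u (φ m + m0))
      refine hu2 (φ m + m0) _ (u (φ m + m0) a - u (φ m + m0) b - 1) ?_ ⟨a, b, by omega⟩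
      intro i j
      obtain ⟨j1, hj1⟩ := hJ
      obtain ⟨i1, hi1⟩ := hJc
      rw [Finset.mem_compl] at hi1
      have h0 := hab i j
      have h1 := hν i j
      have h11 := hab i1 j1
      have h12 := hg i1 hi1 j1 hj1
      have h13 := hν a0 a0
      by_cases hi : i ∈ J
      · by_cases hj : j ∈ J
        · have h2 := hg i1 hi1 i hi
          have h3 := hab i1 j
          omega
        · have h2 := hg j hj i hi
          omega
      · by_cases hj : j ∈ J
        · have h2 := hv i hi j hj
          omega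
        · have h2 := hg j hj j1 hj1
          have h3 := hab i j1
          omega
    exact (hψ.tendsto_atTop.eventually hev).frequently
  have hcard : (Jᶜ).card = 1 := by
    by_contra hne
    have hpos : 0 < (Jᶜ).card := Finset.card_pos.mpr hJc
    exact hsame (aaa n C h.toPCone K (by omega) W W' hW.1 hW'.1 (hT.star W hTW)
      (hT.star W' hTW')
      J 2 (by norm_num) hJ (by omega) hreg)
  obtain ⟨i, hi⟩ := Finset.card_eq_one.mp hcard
  refine ⟨W, W', i, hTW, hTW', hsame, fun v hv => hreg v ?_⟩
  intro i' hi' j hj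
  have h1 : i' = i := by
    have : i' ∈ Jᶜ := Finset.mem_compl.mpr hi'
    rw [hi] at this
    exact Finset.mem_singleton.mp this
  have h2 : j ≠ i := by
    intro hji
    have : i ∈ Jᶜ := by rw [hi]; exact Finset.mem_singleton_self i
    rw [Finset.mem_compl] at this
    exact this (hji ▸ hj)
  rw [h1]
  exact hv j h2

end Pool.Agent.PFS.H37
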