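import Pool.Agent.Helper37_PFS.Stmts2

/-!
# PFS squad, row DSC for families
-/

set_option autoImplicit false

open Matrix Filter Topology

namespace Pool.Agent.PFS.H37

theorem dsc2 (ds1 : Ds12Stmt) (shr : Shr2Stmt) (bbb : B2Stmt) (cc1 : C1Stmt) (cc2 : C22Stmt) :
    Dsc2Stmt := by
  intro n C Γ h K hK hmax T hT x w hTx hTw hlim
  by_contra hcon
  rw [not_eventually] at hcon
  obtain ⟨φ, hφ, hφn⟩ := extraction_of_frequently_atTop hcon
  obtain ⟨W, W', i, hTW, hTW', hsame, hreg⟩ := ds1 n C Γ h K hK T hT (fun m => x (φ m)) w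
    (fun m => hTx _) hTw (fun i => (hlim i).comp hφ.tendsto_atTop) hφn
  obtain ⟨U, hTU, hUW, hUn, hUreg⟩ := shr n C Γ h K hK T hT W W' i hTW hTW' hsame hreg
  have hb := bbb n C Γ h K hK T hT W U i hTW hTU hUreg
  have hc := cc1 n C h.toPCone K hK W U i (hT.pes W hTW).1 (hT.pes U hTU).1 hUW hb
  exact cc2 n C Γ h K hK hmax W U i (hT.pes W hTW) (hT.pes U hTU) (hT.star W hTW) hUW hUn hc

end Pool.Agent.PFS.H37
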