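import Pool.Agent.Helper37_PFS.Stmts2
import Pool.Agent.Helper97_PFS.SHR

/-!
# PFS squad, row SHR for families (adapted from the file of helper97)
-/

set_option autoImplicit false

open Matrix Filter Topology

namespace Pool.Agent.PFS.H37

open Pool.Agent.PFS Pool.Agent.PFS.H97

/-- SHR -/
theorem shr2 (a0 : A0Stmt) (lin : LinStmt) (nin : NinStmt) : Shr2Stmt := by
  classical
  intro n C Γ hCC K hK T hT w w' i hTw hTw' hne hnear
  have hw := hT.pes w hTw
  have hw' := hT.pes w' hTw'
  have hS := hT.star w hTw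
  have hS' := hT.star w' hTw'
  have hC := hCC.toPCone
  have hx : ∑ j, (if j = i then (0 : ℝ) else 1) • w j ∉ C := by
    refine hw.1.bd _ (fun j => ?_) ⟨i, if_pos rfl⟩
    split_ifs <;> norm_num
  set u : ℕ → Fin K → ℤ := fun N l => if l = i then 0 else (N : ℤ) + 1 with hu
  have hlim : Tendsto (fun N : ℕ => ((2 : ℝ) ^ (N + 1))⁻¹ • ∑ l, (2 : ℝ) ^ (u N l) • w l) atTop
      (𝓝 (∑ j, (if j = i then (0 : ℝ) else 1) • w j)) := by
    have h1 : (fun N : ℕ => ((2 : ℝ) ^ (N + 1))⁻¹ • ∑ l, (2 : ℝ) ^ (u N l) • w l) =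
        fun N : ℕ => ∑ l, (((2 : ℝ) ^ (N + 1))⁻¹ * (2 : ℝ) ^ (u N l)) • w l := by
      funext N
      rw [Finset.smul_sum]
      exact Finset.sum_congr rfl fun l _ => smul_smul _ _ _
    rw [h1]
    refine tendsto_finsetSum _ fun l _ => Tendsto.smul_const ?_ _
    by_cases hl : l = i
    · have h2 : (fun N : ℕ => ((2 : ℝ) ^ (N + 1))⁻¹ * (2 : ℝ) ^ (u N l)) =
          fun N : ℕ => ((2 : ℝ)⁻¹) ^ (N + 1) := by
        funext N
        rw [hu]
        simp only
        rw [if_pos hl, zpow_zero, mul_one, inv_pow]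
      rw [h2, if_pos hl]
      exact (tendsto_add_atTop_iff_nat 1).2
        (tendsto_pow_atTop_nhds_zero_of_lt_one (by norm_num) (by norm_num))
    · have h2 : (fun N : ℕ => ((2 : ℝ) ^ (N + 1))⁻¹ * (2 : ℝ) ^ (u N l)) = fun _ => 1 := by
        funext N
        rw [hu]
        simp only
        rw [if_neg hl]
        have h3 : (2 : ℝ) ^ ((N : ℤ) + 1) = (2 : ℝ) ^ (N + 1) := by
          exact_mod_cast zpow_natCast (2 : ℝ) (N + 1)
        rw [h3, inv_mul_cancel₀ (by positivity)]
      rw [h2, if_neg hl]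
      exact tendsto_const_nhds
  have key : ∀ j : Fin K, j ≠ i → ∃ (k : Fin K) (c : ℝ), 0 < c ∧ w j = c • w' k := by
    intro j hj
    refine a0 n C hC K (by omega) w w' hw.1 hw'.1 hS hS' (fun N l => (2 : ℝ) ^ (u N l))
      (fun N => ((2 : ℝ) ^ (N + 1))⁻¹) _ 2 (by norm_num) (fun N => by positivity) ?_ hlim hx j 1
      one_pos ?_
    · intro N
      refine hnear (u N) ?_
      intro l hl
      rw [hu]
      simp only
      rw [if_pos trivial, if_neg hl]
      positivity
    · have h1 : (1 : ℝ) • ∑ l, (if l = i then (0 : ℝ) else 1) • w l - w j =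
          ∑ l, ((if l = i then (0 : ℝ) else 1) - if l = j then 1 else 0) • w l := by
        rw [one_smul]
        simp only [sub_smul, Finset.sum_sub_distrib]
        rw [H97.smul_single]
      rw [h1]
      refine cl_comb hC hw.1 fun l => ?_
      by_cases hl : l = j
      · rw [if_pos hl, hl, if_neg hj, sub_self]
      · rw [if_neg hl, sub_zero]
        split_ifs <;> norm_num
  -- a permutation
  have hσ : ∃ (σ : Equiv.Perm (Fin K)) (a : Fin K → ℝ), (∀ j, 0 < a j) ∧ a i = 1 ∧
      ∀ j, j ≠ i → w j = a j • w' (σ j) := by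
    have key' : ∀ j : Fin K, ∃ (k : Fin K) (c : ℝ), 0 < c ∧ (j ≠ i → w j = c • w' k) ∧
        (j = i → c = 1) := by
      intro j
      by_cases hj : j = i
      · exact ⟨j, 1, one_pos, fun h => absurd hj h, fun _ => rfl⟩
      · obtain ⟨k, c, hc, h⟩ := key j hj
        exact ⟨k, c, hc, fun _ => h, fun h => absurd h hj⟩
    choose τ a ha hτ ha1 using key'
    have hinj : Set.InjOn τ ((Finset.univ.erase i : Finset (Fin K)) : Set (Fin K)) := by
      intro j hj k hk hjk
      rw [Finset.mem_coe, Finset.mem_erase] at hj hk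
      have h1 := hτ j hj.1
      have h2 := hτ k hk.1
      rw [hjk] at h1
      exact ne_of_mul lin hC hw.1 (ha j) (ha k) h1 h2
    obtain ⟨g, hg⟩ := Finset.exists_equiv_extend_of_card_eq (t := (Finset.univ : Finset (Fin K)))
      (by rw [Finset.card_univ]) (s := Finset.univ.erase i) (f := τ) (Finset.subset_univ _) hinj
    refine ⟨g.trans (Equiv.subtypeUnivEquiv fun x => Finset.mem_univ x), a, ha, ha1 i rfl, ?_⟩
    intro j hj
    have h1 := hg j (Finset.mem_erase.2 ⟨hj, Finset.mem_univ _⟩)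
    have h2 : (g.trans (Equiv.subtypeUnivEquiv fun x => Finset.mem_univ x)) j = τ j := h1
    rw [h2]
    exact hτ j hj
  obtain ⟨σ, a, ha, hai, hσ⟩ := hσ
  set W' : Fin K → V n := fun j => a j • w' (σ j) with hW'
  have hWw : ∀ j, j ≠ i → W' j = w j := fun j hj => (hσ j hj).symm
  have hTW' : T W' := hT.scale _ (hT.perm w' hTw' σ) a ha
  have hsame : Same w' W' := by
    refine ⟨σ.symm, fun k => (a (σ.symm k))⁻¹, fun k => inv_pos.2 (ha _), fun k => ?_⟩
    rw [hW']
    simp only
    rw [smul_smul, inv_mul_cancel₀ (ha _).ne', one_smul, Equiv.apply_symm_apply]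
  refine ⟨W', hTW', hWw, ?_, ?_⟩
  · rintro ⟨c, hc, hc'⟩
    apply hne
    refine ⟨σ, fun j => if j = i then c⁻¹ else a j, fun j => ?_, fun j => ?_⟩
    · simp only
      split_ifs
      · exact inv_pos.2 hc
      · exact ha j
    · by_cases hj : j = i
      · simp only
        rw [if_pos hj, hj]
        have h1 : W' i = w' (σ i) := by
          rw [hW']
          simp only
          rw [hai, one_smul]
        rw [← h1, hc', smul_smul, inv_mul_cancel₀ hc.ne', one_smul]
      · simp only
        rw [if_neg hj]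
        exact hσ j hj
  · intro v hv
    exact ((nin n C Γ hCC K w' (pt w v) 2).2.2.2 W' hsame).1 (hnear v hv)

end Pool.Agent.PFS.H37
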