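import Pool.Agent.Helper60_PFS.Lim0
import Pool.Agent.Helper60_PFS.Simp
import Pool.Agent.Helper81_PFS.FLM
import Pool.Agent.Helper81_PFS.CHI
import Pool.Agent.Helper32_PFS.Frz
import Pool.Agent.Helper20_PFS.Mxi
import Pool.Agent.Helper82_PFS.NIN
import Pool.Agent.Helper82_PFS.MIN
import Pool.Agent.Helper82_PFS.ABE
import Pool.Agent.Helper73_PFS.NFN
import Pool.Agent.Helper73_PFS.COM
import Pool.Agent.Helper73_PFS.HOM
import Pool.Agent.Helper73_PFS.MXK
import Pool.Agent.Helper24_PFS.FCS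
import Pool.Agent.Helper55_PFS.NOP
import Pool.Agent.Helper97_PFS.AAA
import Pool.Agent.Helper97_PFS.GAP
import Pool.Agent.Helper97_PFS.CC1
import Pool.Agent.Helper37_PFS.FZM
import Pool.Agent.Helper37_PFS.ZST2
import Pool.Agent.Helper37_PFS.DS12
import Pool.Agent.Helper37_PFS.SHR2
import Pool.Agent.Helper37_PFS.BBB2
import Pool.Agent.Helper37_PFS.C22
import Pool.Agent.Helper37_PFS.DSC2
import Pool.Agent.Helper37_PFS.PER2
import Pool.Agent.Helper37_PFS.FFS
import Pool.Agent.Helper37_PFS.FIN3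

/-!
# PFS squad: the theorem for closed invariant families, all rows put together
-/

set_option autoImplicit false

open Matrix Filter Topology

namespace Pool.Agent.PFS.H37

theorem cloF : CloStmt := H60.clo H60.lim0 H60.zom
theorem flmF : FlmStmt := H81.flm H60.lim0 H60.zom cloF
theorem limF : LimStmt := H60.lim cloF H60.crt
theorem lpsF : LpsStmt := H60.lps limF
theorem fzmF : FzmStmt := fzm H60.zom limF flmF H60.elm
theorem aaaF : AStmt := H97.aaa (H97.a0 H60.lin) H60.lin
theorem minF : MinStmt := H82.min aaaF H55.nop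
theorem zstF : Zst2Stmt := zst2 H60.zom H60.elm lpsF H82.nin (H32.ncl H60.lin) H55.nop
theorem ds1F : Ds12Stmt := ds12 minF H97.gap H82.nin zstF aaaF
theorem shrF : Shr2Stmt := shr2 (H97.a0 H60.lin) H60.lin H82.nin
theorem bbbF : B2Stmt := bbb2 zstF aaaF
theorem cc1F : C1Stmt := H97.cc1 H60.fun_
theorem c22F : C22Stmt := c22 H60.zom limF H60.elm H60.lin H60.fun_
theorem dscF : Dsc2Stmt := dsc2 ds1F shrF bbbF cc1F c22F
theorem perF : Per2Stmt := per2 H60.zom H60.elm lpsF H60.lin
theorem abeF : AbeStmt := H82.abe H73.nfn H73.com H73.hom H60.lin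

/-- the theorem for closed invariant families of top simplices -/
theorem famF : FamFinStmt := famfin (H20.mxi H60.lin) H32.frz H60.lin dscF perF H81.chi abeF

/-- the theorem for one simplex, in terms of its orbit closure -/
theorem orbF {n : ℕ} {C : Set (V n)} {Γ : Subgroup (GL (Fin n) ℝ)} (h : CC C Γ) {k : ℕ}
    (hk : 2 ≤ k) (hmax : MaxCard C Γ (k + 1)) (v : Fin (k + 1) → V n) (hv : IsPES C Γ v)
    (hF : ∀ w, IsPES C Γ w → w ∈ closure (Orb Γ v) → FacetFace C w) : Concl C Γ k v := by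
  obtain ⟨T, hT, hTv⟩ := orbfam H60.elm n C Γ h (k + 1) v hv fun w hw hwc =>
    H24.fcs H60.lin n C h.toPCone (k + 1) w hw.1 (hF w hw hwc)
  exact famF n C Γ h k hk hmax T hT v hTv

end Pool.Agent.PFS.H37
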