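import Pool.Agent.PFS.Stmts

/-!
# PFS, stronger version: closed invariant families of top simplices with `Star`

The facets (hence all proper faces) of the simplices are assumed to be open faces of the domain,
only for the members of a closed invariant family `T` of top dimensional simplices; nothing is
assumed on the other faces of the domain.
-/

set_option autoImplicit false

open Matrix Filter Topology

namespace Pool.Agent.PFS

/-- closed `Γ`-invariant families of properly embedded simplices with `K` vertices in the limit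
cone all of whose faces are faces of the domain -/
structure Fam {n : ℕ} (C : Set (V n)) (Γ : Subgroup (GL (Fin n) ℝ)) (K : ℕ)
    (T : (Fin K → V n) → Prop) : Prop where
  pes : ∀ w, T w → IsPES C Γ w
  star : ∀ w, T w → Star C w
  scale : ∀ w, T w → ∀ c : Fin K → ℝ, (∀ i, 0 < c i) → T (fun i => c i • w i)
  act : ∀ w, T w → ∀ g ∈ Γ, ∀ s : ℝ, 0 < s → T (fun i => s • act g (w i))
  perm : ∀ w, T w → ∀ σ : Equiv.Perm (Fin K), T (fun i => w (σ i))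
  closed : ∀ (x : ℕ → Fin K → V n) (w : Fin K → V n), (∀ m, T (x m)) →
    (∀ i, Tendsto (fun m => x m i) atTop (𝓝 (w i))) → IsPES C Γ w → T w

/-- row ZST for families -/
def Zst2Stmt : Prop :=
  ∀ (n : ℕ) (C : Set (V n)) (Γ : Subgroup (GL (Fin n) ℝ)), CC C Γ → ∀ K : ℕ, 2 ≤ K →
    ∀ T : (Fin K → V n) → Prop, Fam C Γ K T →
    ∀ (w : Fin K → V n) (x : ℕ → Fin K → V n) (u : ℕ → Fin K → ℤ) (M₁ M₂ : ℝ), 1 < M₂ →
      T w → (∀ m, T (x m)) →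
      (∀ m, Near C M₁ (x m) (pt w (u m))) → (∀ m, ¬ Near C M₂ (x m) (pt w (u m))) →
      ∃ (φ : ℕ → ℕ) (W W' : Fin K → V n), StrictMono φ ∧ T W ∧ T W' ∧
        ¬ Same W W' ∧
        ∀ (v : Fin K → ℤ) (M : ℝ),
          (∃ᶠ m in atTop, Near C M (x (φ m)) (pt w (fun i => u (φ m) i + v i))) →
          Near C M W' (pt W v)

/-- row DS1 for families -/
def Ds12Stmt : Prop :=
  ∀ (n : ℕ) (C : Set (V n)) (Γ : Subgroup (GL (Fin n) ℝ)), CC C Γ →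
    ∀ K : ℕ, 3 ≤ K → ∀ T : (Fin K → V n) → Prop, Fam C Γ K T →
    ∀ (x : ℕ → Fin K → V n) (w : Fin K → V n),
      (∀ m, T (x m)) → T w →
      (∀ i, Tendsto (fun m => x m i) atTop (𝓝 (w i))) → (∀ m, ¬ Same w (x m)) →
      ∃ (W W' : Fin K → V n) (i : Fin K), T W ∧ T W' ∧ ¬ Same W W' ∧
        (∀ v : Fin K → ℤ, (∀ j, j ≠ i → v i < v j) → Near C 2 W' (pt W v))

/-- row SHR for families -/
def Shr2Stmt : Prop :=
  ∀ (n : ℕ) (C : Set (V n)) (Γ : Subgroup (GL (Fin n) ℝ)), CC C Γ →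
    ∀ K : ℕ, 3 ≤ K → ∀ T : (Fin K → V n) → Prop, Fam C Γ K T →
    ∀ (w w' : Fin K → V n) (i : Fin K), T w → T w' → ¬ Same w w' →
      (∀ v : Fin K → ℤ, (∀ j, j ≠ i → v i < v j) → Near C 2 w' (pt w v)) →
      ∃ W' : Fin K → V n, T W' ∧ (∀ j, j ≠ i → W' j = w j) ∧
        (¬ ∃ c : ℝ, 0 < c ∧ W' i = c • w i) ∧
        (∀ v : Fin K → ℤ, (∀ j, j ≠ i → v i < v j) → Near C 2 W' (pt w v))

/-- row BBB for families -/
def B2Stmt : Prop :=
  ∀ (n : ℕ) (C : Set (V n)) (Γ : Subgroup (GL (Fin n) ℝ)), CC C Γ →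
    ∀ K : ℕ, 3 ≤ K → ∀ T : (Fin K → V n) → Prop, Fam C Γ K T →
    ∀ (w w' : Fin K → V n) (i : Fin K), T w → T w' →
      (∀ v : Fin K → ℤ, (∀ j, j ≠ i → v i < v j) → Near C 2 w' (pt w v)) →
      ∀ j, j ≠ i → ∀ M : ℝ, 1 < M → ∀ᶠ N : ℕ in atTop,
        Near C M w' (pt w (fun l => if l = i then 0 else if l = j then (N : ℤ) else 1))

/-- row CC2 without any hypothesis on the other faces (zoom with two speeds) -/
def C22Stmt : Prop :=
  ∀ (n : ℕ) (C : Set (V n)) (Γ : Subgroup (GL (Fin n) ℝ)), CC C Γ →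
    ∀ K : ℕ, 3 ≤ K → MaxCard C Γ K → ∀ (w w' : Fin K → V n) (i : Fin K),
      IsPES C Γ w → IsPES C Γ w' → Star C w → (∀ j, j ≠ i → w' j = w j) →
      (¬ ∃ c : ℝ, 0 < c ∧ w' i = c • w i) →
      ¬ (∀ l, l ≠ i → ∀ φ : (V n) →ₗ[ℝ] ℝ, (∀ x ∈ C, 0 < φ x) → (∀ x ∈ closure C, 0 ≤ φ x) →
          (∀ m, m ≠ l → φ (w m) = 0) → 0 < φ (w l) → φ (w' i) = 0)

/-- row DSC for families -/
def Dsc2Stmt : Prop :=
  ∀ (n : ℕ) (C : Set (V n)) (Γ : Subgroup (GL (Fin n) ℝ)), CC C Γ →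
    ∀ K : ℕ, 3 ≤ K → MaxCard C Γ K → ∀ T : (Fin K → V n) → Prop, Fam C Γ K T →
    ∀ (x : ℕ → Fin K → V n) (w : Fin K → V n),
      (∀ m, T (x m)) → T w →
      (∀ i, Tendsto (fun m => x m i) atTop (𝓝 (w i))) → ∀ᶠ m in atTop, Same w (x m)

/-- row PER for families -/
def Per2Stmt : Prop :=
  ∀ (n : ℕ) (C : Set (V n)) (Γ : Subgroup (GL (Fin n) ℝ)), CC C Γ → ∀ K : ℕ, 2 ≤ K →
    ∀ T : (Fin K → V n) → Prop, Fam C Γ K T →
    (∀ (x : ℕ → Fin K → V n) (W : Fin K → V n), (∀ m, T (x m)) → T W →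
      (∀ i, Tendsto (fun m => x m i) atTop (𝓝 (W i))) → ∀ᶠ m in atTop, Same W (x m)) →
    ∀ w : Fin K → V n, T w → ∀ ℓ : Fin K → ℝ, ℓ ≠ 0 → ∑ i, ℓ i = 0 →
      ∃ γ ∈ Γ, ∃ χ : Fin K → ℝ, (∀ i, act γ (w i) = Real.exp (χ i) • w i) ∧
        ∑ i, ℓ i * χ i ≠ 0

end Pool.Agent.PFS
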