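import Pool.Agent.Helper37_PFS.Stmts3
import Pool.Agent.Helper60_PFS.Simp

/-!
# PFS: an irreducible cone of dimension at least two is not simplicial
-/

set_option autoImplicit false

open Matrix Filter Topology

namespace Pool.Agent.PFS.H37

theorem not_full {n : ℕ} (hn : 2 ≤ n) {C : Set (V n)} (h : PCone C) (hirr : IrredCone C)
    {w : Fin n → V n} (hw : PES C w) : False := by
  classical
  have hind := H60.lin n C h (Fin n) w hw
  have hcard : Fintype.card (Fin n) = Module.finrank ℝ (V n) := by simp
  have : Nonempty (Fin n) := ⟨⟨0, by omega⟩⟩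
  let b : Module.Basis (Fin n) ℝ (V n) := basisOfLinearIndependentOfCardEqFinrank hind hcard
  have hb : ∀ i, b i = w i := fun i => by
    simp [b]
  have hrep : ∀ x : V n, x = ∑ i, b.repr x i • w i := by
    intro x
    conv_lhs => rw [← b.sum_repr x]
    exact Finset.sum_congr rfl fun i _ => by rw [hb]
  -- coordinates of points of C are positive
  have hpos : ∀ x ∈ C, ∀ i, 0 ≤ b.repr x i := by
    intro x hx
    by_contra hcon
    push Not at hcon
    obtain ⟨i1, hi1⟩ := hcon
    obtain ⟨i0, hmin⟩ := Finite.exists_min (fun i => b.repr x i)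
    have h0 : b.repr x i0 < 0 := lt_of_le_of_lt (hmin i1) hi1
    obtain ⟨a, ha⟩ : ∃ a : ℝ, a = -b.repr x i0 := ⟨_, rfl⟩
    have ha0 : 0 < a := by rw [ha]; linarith
    have hmem : a • (∑ i, w i) + x ∈ C :=
      h.add_cl (h.smul _ hw.sum_mem a ha0) (subset_closure hx)
    have he : a • (∑ i, w i) + x = ∑ i, (a + b.repr x i) • w i := by
      conv_lhs => rw [hrep x]
      rw [Finset.smul_sum, ← Finset.sum_add_distrib]
      exact Finset.sum_congr rfl fun i _ => by rw [add_smul]
    rw [he] at hmem
    refine hw.bd _ (fun i => ?_) ⟨i0, by rw [ha]; ring⟩ hmem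
    have := hmin i
    rw [ha]; linarith
  have hcl : ∀ x ∈ closure C, ∀ i, 0 ≤ b.repr x i := by
    intro x hx i
    have hc : Continuous (fun z : V n => b.repr z i) :=
      (b.coord i).continuous_of_finiteDimensional
    have hcs : IsClosed {z : V n | 0 ≤ b.repr z i} := isClosed_le continuous_const hc
    exact closure_minimal (fun z hz => hpos z hz i) hcs hx
  let i0 : Fin n := ⟨0, by omega⟩
  let i1 : Fin n := ⟨1, by omega⟩
  have hne : i1 ≠ i0 := by
    intro hE
    have := congrArg Fin.val hE
    simp [i0, i1] at this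
  let P : V n →ₗ[ℝ] V n := (b.coord i0).smulRight (w i0)
  have hP : ∀ x, P x = b.repr x i0 • w i0 := fun x => rfl
  have hrw : ∀ i j, b.repr (w i) j = if i = j then 1 else 0 := by
    intro i j
    rw [← hb i, b.repr_self, Finsupp.single_apply]
  have hPP : ∀ x, P (P x) = P x := by
    intro x
    rw [hP x, map_smul, hP, hrw]
    simp
  have hPC : ∀ x ∈ closure C, P x ∈ closure C ∧ x - P x ∈ closure C := by
    intro x hx
    refine ⟨?_, ?_⟩
    · rw [hP]
      exact h.cl_smul (hw.cl i0) (hcl x hx i0)
    · rw [hP]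
      have e : x - b.repr x i0 • w i0 = ∑ i ∈ Finset.univ.erase i0, b.repr x i • w i := by
        rw [Finset.sum_erase_eq_sub (Finset.mem_univ i0), ← hrep x]
      rw [e]
      exact h.cl_sum fun i _ => h.cl_smul (hw.cl i) (hcl x hx i)
  rcases hirr P hPP hPC with h0 | h1
  · have := h0 (w i0)
    rw [hP, hrw, if_pos rfl, one_smul] at this
    exact hind.ne_zero i0 this
  · have := h1 (w i1)
    rw [hP, hrw, if_neg hne, zero_smul] at this
    exact hind.ne_zero i1 this.symm

end Pool.Agent.PFS.H37
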