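import Pool.Agent.Helper37_PFS.Stmts3

/-!
# PFS squad, rows FAMFIN, ORBFAM, FIN3: assembly for families of simplices
-/

set_option autoImplicit false

open Matrix Filter Topology

namespace Pool.Agent.PFS.H37

variable {n : ℕ}

theorem famfin (mxi : MxiStmt) (frz : FrzStmt) (lin : LinStmt) (dsc : Dsc2Stmt) (per : Per2Stmt)
    (chi : ChiStmt) (abe : AbeStmt) : FamFinStmt := by
  intro n C Γ h k hk hmax T hT v hTv
  have hv := hT.pes v hTv
  have hind := lin n C h.toPCone _ v hv.1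
  have hF := (frz n C h.toPCone _ v hind).mp hv.1
  refine ⟨hind, hF.1, hF.2, ?_, ?_⟩
  · intro m w hwind hw1 hw2 hsub
    have hwP : PES C w := (frz n C h.toPCone _ w hwind).mpr ⟨hw1, hw2⟩
    exact mxi n C h.toPCone (k + 1) (by omega) v hv.1 (hT.star v hTv) (m + 1) w hwP hsub
  · obtain ⟨χ, hχX, hχind⟩ := chi k
      {χ : Fin (k + 1) → ℝ | ∃ γ ∈ Γ, ∀ i, act γ (v i) = Real.exp (χ i) • v i} (by
        intro ℓ hℓ hsum
        obtain ⟨γ, hγ, χ, h1, h2⟩ := per n C Γ h (k + 1) (by omega) T hT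
          (fun x W hx hW hlim => dsc n C Γ h (k + 1) (by omega) hmax T hT x W hx hW hlim)
          v hTv ℓ hℓ hsum
        exact ⟨χ, ⟨γ, hγ, h1⟩, h2⟩)
    choose γ hγ hγχ using hχX
    exact abe n C Γ h k v hv γ χ hγ hγχ hχind

theorem star_perm {K : ℕ} {C : Set (V n)} {w : Fin K → V n} {σ : Equiv.Perm (Fin K)}
    (hs : Star C (fun i => w (σ i))) : Star C w := by
  classical
  intro I hI β y hy hle
  have hI' : I.map σ.symm.toEmbedding ≠ Finset.univ := by
    intro hE
    apply hI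
    rw [Finset.eq_univ_iff_forall] at hE ⊢
    intro i
    have := hE (σ.symm i)
    rw [Finset.mem_map_equiv] at this
    simpa using this
  have hsum : ∑ i ∈ I.map σ.symm.toEmbedding, w (σ i) = ∑ i ∈ I, w i := by
    rw [Finset.sum_map]
    exact Finset.sum_congr rfl fun i _ => by simp
  obtain ⟨c, hc0, hcI, hcy⟩ := hs _ hI' β y hy (by
    change (β • ∑ i ∈ I.map σ.symm.toEmbedding, w (σ i)) - y ∈ closure C
    rw [hsum]; exact hle)
  refine ⟨fun j => c (σ.symm j), fun j => hc0 _, ?_, ?_⟩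
  · intro j hj
    refine hcI _ ?_
    rw [Finset.mem_map_equiv]
    simpa using hj
  · rw [hcy, ← Equiv.sum_comp σ (fun j => c (σ.symm j) • w j)]
    exact Finset.sum_congr rfl fun i _ => by simp

theorem orbfam (elm : ElmStmt) : OrbFamStmt := by
  classical
  intro n C Γ h K v hv hstar
  have key : ∀ (F : (Fin K → V n) → (Fin K → V n)), Continuous F →
      (∀ x ∈ Orb Γ v, F x ∈ Orb Γ v) → ∀ x ∈ closure (Orb Γ v), F x ∈ closure (Orb Γ v) := by
    intro F hF hm x hx
    have := image_closure_subset_closure_image hF (s := Orb Γ v) ⟨x, hx, rfl⟩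
    refine closure_mono ?_ this
    rintro _ ⟨z, hz, rfl⟩
    exact hm z hz
  refine ⟨fun w => IsPES C Γ w ∧ ∃ σ : Equiv.Perm (Fin K), (fun i => w (σ i)) ∈ closure (Orb Γ v),
    ?_, ?_⟩
  · refine ⟨fun w hw => hw.1, ?_, ?_, ?_, ?_, ?_⟩
    · rintro w ⟨hw, σ, hσ⟩
      exact star_perm (hstar _ ((elm n C Γ h (Fin K) w hw).2.2.1 (Fin K) σ) hσ)
    · rintro w ⟨hw, σ, hσ⟩ c hc
      refine ⟨(elm n C Γ h (Fin K) w hw).1 c hc, σ, ?_⟩
      refine key (fun x i => c (σ i) • x i) ?_ ?_ _ hσ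
      · have hci : ∀ i : Fin K, Continuous (fun x : Fin K → V n => c (σ i) • x i) := fun i =>
          (continuous_const_smul (c (σ i))).comp (continuous_apply i)
        exact continuous_pi hci
      · rintro _ ⟨g, hg, d, hd, rfl⟩
        refine ⟨g, hg, fun i => c (σ i) * d i, fun i => mul_pos (hc _) (hd i), ?_⟩
        funext i
        simp only [smul_smul]
    · rintro w ⟨hw, σ, hσ⟩ g hg s hs
      refine ⟨(elm n C Γ h (Fin K) w hw).2.1 g hg s hs, σ, ?_⟩
      refine key (fun x i => s • act g (x i)) ?_ ?_ _ hσ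
      · have hci : ∀ i : Fin K, Continuous (fun x : Fin K → V n => s • act g (x i)) := fun i =>
          (continuous_const_smul s).comp ((CC.act_continuous g).comp (continuous_apply i))
        exact continuous_pi hci
      · rintro _ ⟨g', hg', d, hd, rfl⟩
        refine ⟨g * g', Γ.mul_mem hg hg', fun i => s * d i, fun i => mul_pos hs (hd i), ?_⟩
        funext i
        simp only
        rw [CC.act_smul, smul_smul, CC.act_mul]
    · rintro w ⟨hw, σ, hσ⟩ τ
      refine ⟨(elm n C Γ h (Fin K) w hw).2.2.1 (Fin K) τ, σ.trans τ.symm, ?_⟩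
      simpa using hσ
    · intro x w hx hlim hw
      refine ⟨hw, ?_⟩
      obtain ⟨σ, hσ⟩ : ∃ σ : Equiv.Perm (Fin K), ∃ᶠ m in atTop,
          (fun i => x m (σ i)) ∈ closure (Orb Γ v) := by
        by_contra hcon
        push Not at hcon
        have h1 : ∀ᶠ m in atTop, ∀ σ : Equiv.Perm (Fin K),
            (fun i => x m (σ i)) ∉ closure (Orb Γ v) :=
          eventually_all.2 fun σ => hcon σ
        obtain ⟨m, hm⟩ := h1.exists
        obtain ⟨σ, hσ⟩ := (hx m).2
        exact hm σ hσ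
      refine ⟨σ, ?_⟩
      have hl : Tendsto (fun m => (fun i => x m (σ i))) atTop (𝓝 (fun i => w (σ i))) :=
        tendsto_pi_nhds.mpr fun i => hlim (σ i)
      exact isClosed_closure.mem_of_frequently_of_tendsto hσ hl
  · refine ⟨hv, Equiv.refl _, subset_closure ⟨1, Γ.one_mem, fun _ => 1, fun _ => one_pos, ?_⟩⟩
    funext i
    simp only [Equiv.refl_apply]
    rw [CC.act_one, one_smul]

theorem fin3 (mxk : MxkStmt) (str : StrStmt) (fcs : FcsStmt) (cd1 : Cd1Stmt)
    (orb : OrbFamStmt) (ff : FamFinStmt) : Fin3Stmt := by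
  intro n C Γ h htri
  obtain ⟨k, hk, hex, hmax⟩ := mxk n C Γ h htri
  refine ⟨k, hk, hex, hmax, ?_⟩
  intro v hv hcase
  have hstar : ∀ w, IsPES C Γ w → w ∈ closure (Orb Γ v) → Star C w := by
    intro w hw hwc
    rcases hcase with hA | hB | ⟨hirr, hn⟩
    · exact fcs n C h.toPCone (k + 1) w hw.1 (hA w hw hwc)
    · exact str n C Γ h hB (k + 1) hmax w hw
    · exact fcs n C h.toPCone (k + 1) w hw.1 (cd1 n C Γ h hirr (k + 1) (by omega) hn w hw)
  obtain ⟨T, hT, hTv⟩ := orb n C Γ h (k + 1) v hv hstar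
  exact ff n C Γ h k hk hmax T hT v hTv

end Pool.Agent.PFS.H37
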