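import Pool.Agent.Helper37_PFS.Stmts2

/-!
# PFS: rows FCS, CD1, FIN3 (hypothesis on facets only; the codimension one case)
-/

set_option autoImplicit false

open Matrix Filter Topology

namespace Pool.Agent.PFS

/-- every open facet of the simplex `w` is an open face of the domain -/
def FacetFace {n K : ℕ} (C : Set (V n)) (w : Fin K → V n) : Prop :=
  ∀ (l : Fin K) (y : V n), y ∈ Face C (∑ i ∈ Finset.univ.erase l, w i) →
    ∃ c : Fin K → ℝ, c l = 0 ∧ (∀ i, i ≠ l → 0 < c i) ∧ y = ∑ i, c i • w i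

/-- the vertex families of all `Γ`-translates of the simplex `w0` -/
def Orb {n K : ℕ} (Γ : Subgroup (GL (Fin n) ℝ)) (w0 : Fin K → V n) : Set (Fin K → V n) :=
  {x | ∃ g ∈ Γ, ∃ c : Fin K → ℝ, (∀ i, 0 < c i) ∧ x = fun i => c i • act g (w0 i)}

/-- the domain is irreducible: the only projections `P` such that `P` and `1 - P` preserve the
closed cone are `0` and `1` -/
def IrredCone {n : ℕ} (C : Set (V n)) : Prop :=
  ∀ P : (V n) →ₗ[ℝ] (V n), (∀ x, P (P x) = P x) →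
    (∀ x ∈ closure C, P x ∈ closure C ∧ x - P x ∈ closure C) →
    (∀ x, P x = 0) ∨ (∀ x, P x = x)

/-- **Row FCS.**  If all facets of `w` are open faces of the domain, then all faces are (`Star`).

Proof.  Let `I ≠ univ`, `y ∈ closure C`, `y ≤ β ∑_I w_i`.  If `β ≤ 0` then `-y ∈ closure C`, `y = 0`,
`c = 0`.  Let `β > 0`, choose `l ∉ I`, `x = ∑_{i≠l} w_i`.  `y ≤ β x`.  For every `μ > 0`,
`x + μ y ∈ Face C x` (`x ≤ x + μ y ≤ (1 + μ β) x`), so `x + μ y = ∑ a_i w_i`, `a_l = 0`, `a_i > 0`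
for `i ≠ l`.  With `μ = 1` and independence: `y = ∑ d_i w_i`, `d_l = 0`, and `1 + μ d_i > 0` for all
`μ > 0`, `i ≠ l`, so `d_i ≥ 0`.  The same for `y' = β ∑_I w_i - y ∈ closure C` (`y' ≤ β x` too):
`y' = ∑ d'_i w_i`, `d'_i ≥ 0`.  `y + y' = β ∑_I w_i`, so by independence `d_i + d'_i = 0` for
`i ∉ I`, hence `d_i = 0` there. -/
def FcsStmt : Prop :=
  ∀ (n : ℕ) (C : Set (V n)), PCone C → ∀ (K : ℕ) (w : Fin K → V n), PES C w →
    FacetFace C w → Star C w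

/-- **Row CD1** (codimension one).  If the domain is irreducible and `w` is an `IsPES` with
`K = n - 1 ≥ 2` vertices, then all facets of `w` are open faces of the domain.

Proof.  Fix `l`, `x = ∑_{i≠l} w_i`, `F = Face C x`, `L = span F`.
(1) `L ∩ C = ∅`: `F` is closed under addition and positive scaling and contains `x`, so
`L = F - F` (`Submodule.span_induction`); `v = a - b ∈ C` with `a, b ∈ F` gives `a = v + b ∈ C`
(`b ∈ closure C`), and `a ≤ x / ε`, so `x / ε ∈ C`, `x ∈ C`, contradicting `bd`.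
(2) `w_i ∈ L` for `i ≠ l` (`x, x + w_i ∈ F`); `w_l ∉ L`, since `x + w_l = ∑ w ∈ C`.
(3) If `finrank L ≤ K - 1`, then `L = span {w_i : i ≠ l}` (LIN) and the argument of row STR (claim)
shows that every `z ∈ F` is `∑_{i≠l} a_i w_i` with all `a_i > 0`: suppose the minimal coefficient
`a_{i0} ≤ 0`, `θ = 1/(1 - a_{i0})`, `v = (1-θ) x + θ z` has coefficients `≥ 0`, `= 0` at `i0`,
`v ≥ ε' x`, and with `A ≥` all its coefficients `A ∑_{i ≠ l, i0} w_i + ε' w_l ≥ ε' ∑ w ∈ C`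
contradicts `bd`.
(4) Otherwise `finrank L ≥ K = n - 1`, and `L ≠ ⊤` by (1), so there is a linear form `φ` with kernel
`L`, `φ (w_l) = 1`.  `φ ≠ 0` on `C` by (1), `φ (∑ w) = 1 > 0` and `C` is convex, so `φ > 0` on `C`
and `φ ≥ 0` on `closure C`.  Every `v ∈ V` is `a - b + h w_l` with `a, b ∈ F`, `h = φ v`.
(5) `t_m = 1/(m+1)`, `p_m = x + t_m w_l ∈ C ∩ Hull`; ZOM: `G_m p_{φ m} → p ∈ C` (write `t_m` for
`t_{φ m}`).  `A_m v := G_m (v - φ(v) w_l + t_m φ(v) w_l)` and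
`B_m v := u - φ(u) w_l + (φ(u)/t_m) w_l`, `u = G_m⁻¹ v`, are inverse linear maps.
`A_m v` is bounded for each `v`: for `a ∈ F`, `0 ≤ a ≤ x/ε ≤ p_m/ε`, and `0 ≤ t_m w_l ≤ p_m`,
`G_m p_m` bounded, `PCone.normal`.  `B_m v` is bounded for each `v`: `V = C - C`; for `v ∈ C`
`v ≤ β p` and eventually `p ≤ 2 G_m p_m`, so `0 ≤ u ≤ 2 β p_m`; so `u` is bounded and
`0 ≤ φ(u) ≤ 2 β t_m`.  Linear maps bounded at every vector have a convergent subsequence (matrices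
in the standard basis): `A_m → A`, `B_m → B`, `A B = B A = 1`.
(6) For `v ∈ closure C`: `φ(B v) = lim φ(u)/t_m ≥ 0`, `B v - φ(B v) w_l = lim (u - φ(u) w_l) =: u'`.
For `v ∈ C` `φ(u) → 0`, so `u' = lim u ∈ closure C`, `φ(u') = 0`, and
`A u' = lim G_m u' ∈ closure C`; by continuity `A(B v - φ(B v) w_l) ∈ closure C` for all
`v ∈ closure C`.  `A w_l = lim t_m G_m w_l ∈ closure C`.
(7) `P v := φ(B v) • A w_l`.  `P (P v) = P v` since `B A = 1`, `φ(w_l) = 1`.  For `v ∈ closure C`,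
`P v ∈ closure C` and `v - P v = A (B v - φ(B v) w_l) ∈ closure C`.  `P (A w_l) = A w_l ≠ 0`, and
`P (A w_i) = 0 ≠ A w_i` for an `i ≠ l` (`K ≥ 2`).  This contradicts irreducibility. -/
def Cd1Stmt : Prop :=
  ∀ (n : ℕ) (C : Set (V n)) (Γ : Subgroup (GL (Fin n) ℝ)), CC C Γ → IrredCone C →
    ∀ K : ℕ, 2 ≤ K → n = K + 1 → ∀ w : Fin K → V n, IsPES C Γ w → FacetFace C w

/-- the conclusion of Q1 for the simplex `v`, literally as in S14139 -/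
def Concl {n : ℕ} (C : Set (V n)) (Γ : Subgroup (GL (Fin n) ℝ)) (k : ℕ)
    (v : Fin (k + 1) → V n) : Prop :=
  LinearIndependent ℝ v ∧
      {y : V n | ∃ c : Fin (k + 1) → ℝ, (∀ i, 0 < c i) ∧ y = ∑ i, c i • v i} ⊆ C ∧
      closure {y : V n | ∃ c : Fin (k + 1) → ℝ, (∀ i, 0 < c i) ∧ y = ∑ i, c i • v i} ∩ C
        ⊆ {y : V n | ∃ c : Fin (k + 1) → ℝ, (∀ i, 0 < c i) ∧ y = ∑ i, c i • v i} ∧
      (∀ (m : ℕ) (w : Fin (m + 1) → V n), LinearIndependent ℝ w →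
        {y : V n | ∃ c : Fin (m + 1) → ℝ, (∀ i, 0 < c i) ∧ y = ∑ i, c i • w i} ⊆ C →
        closure {y : V n | ∃ c : Fin (m + 1) → ℝ, (∀ i, 0 < c i) ∧ y = ∑ i, c i • w i} ∩ C
          ⊆ {y : V n | ∃ c : Fin (m + 1) → ℝ, (∀ i, 0 < c i) ∧ y = ∑ i, c i • w i} →
        {y : V n | ∃ c : Fin (k + 1) → ℝ, (∀ i, 0 < c i) ∧ y = ∑ i, c i • v i}
          ⊆ {y : V n | ∃ c : Fin (m + 1) → ℝ, (∀ i, 0 < c i) ∧ y = ∑ i, c i • w i} →
        {y : V n | ∃ c : Fin (m + 1) → ℝ, (∀ i, 0 < c i) ∧ y = ∑ i, c i • w i}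
          ⊆ {y : V n | ∃ c : Fin (k + 1) → ℝ, (∀ i, 0 < c i) ∧ y = ∑ i, c i • v i}) ∧
      ∃ A : Subgroup (GL (Fin n) ℝ), A ≤ Γ ∧
        Nonempty (↥A ≃* Multiplicative (Fin k → ℤ)) ∧
        ∀ a ∈ A, ∀ y ∈ {y : V n | ∃ c : Fin (k + 1) → ℝ, (∀ i, 0 < c i) ∧ y = ∑ i, c i • v i},
          (a : Matrix (Fin n) (Fin n) ℝ) *ᵥ y ∈
            {y : V n | ∃ c : Fin (k + 1) → ℝ, (∀ i, 0 < c i) ∧ y = ∑ i, c i • v i}

/-- assembly for families -/
def FamFinStmt : Prop :=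
  ∀ (n : ℕ) (C : Set (V n)) (Γ : Subgroup (GL (Fin n) ℝ)), CC C Γ →
    ∀ k : ℕ, 2 ≤ k → MaxCard C Γ (k + 1) → ∀ T : (Fin (k + 1) → V n) → Prop,
      Fam C Γ (k + 1) T → ∀ v, T v → Concl C Γ k v

/-- the orbit closure of a simplex is a family -/
def OrbFamStmt : Prop :=
  ∀ (n : ℕ) (C : Set (V n)) (Γ : Subgroup (GL (Fin n) ℝ)), CC C Γ →
    ∀ (K : ℕ) (v : Fin K → V n), IsPES C Γ v →
      (∀ w, IsPES C Γ w → w ∈ closure (Orb Γ v) → Star C w) →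
      ∃ T : (Fin K → V n) → Prop, Fam C Γ K T ∧ T v

/-- final assembly with a triangle in the core -/
def Fin3Stmt : Prop :=
  ∀ (n : ℕ) (C : Set (V n)) (Γ : Subgroup (GL (Fin n) ℝ)), CC C Γ →
    (∃ w : Fin 3 → V n, IsPES C Γ w) →
    ∃ k : ℕ, 2 ≤ k ∧ (∃ w : Fin (k + 1) → V n, IsPES C Γ w) ∧ MaxCard C Γ (k + 1) ∧
      ∀ v : Fin (k + 1) → V n, IsPES C Γ v →
        ((∀ w, IsPES C Γ w → w ∈ closure (Orb Γ v) → FacetFace C w) ∨ SimpFaces C Γ ∨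
          (IrredCone C ∧ n = k + 2)) → Concl C Γ k v

end Pool.Agent.PFS
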